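import Pool.Agent.R536.UD.RedPoly
import Pool.Agent.R536.UD.Mem

/-!
# Role assignments of interval graphs
-/

set_option autoImplicit false

namespace Pool.Agent.NPC.R536RA

open Pool.Agent.NPC.R536CS Pool.Agent.NPC.R536UD

/-- `r` is an `R`-role assignment of `G`, that is a locally surjective homomorphism from `G` to `R`:
for each vertex `u` the set of the images of the neighbours of `u` is the set of the neighbours of
`r u`. -/
def IsRole {V W : Type} (G : SimpleGraph V) (R : SimpleGraph W) (r : V → W) : Prop :=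
  ∀ u, r '' G.neighborSet u = R.neighborSet (r u)

/-- ROLE ASSIGNMENT restricted to interval graphs `G`: given two graphs `G` and `R`, is `G` an
interval graph that has an `R`-role assignment? -/
def RoleInterval (x : Gr × Gr) : Prop :=
  IsIntervalGraph (graph x.1) ∧ ∃ r, IsRole (graph x.1) (graph x.2) r

/-- Role assignments in terms of names. -/
structure Role (G R : Gr) (f : ℕ → ℕ) : Prop where
  mem : ∀ v ∈ G.1, f v ∈ R.1
  hom : ∀ u v, Adj G u v → Adj R (f u) (f v)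
  sur : ∀ u ∈ G.1, ∀ y, Adj R (f u) y → ∃ v, Adj G u v ∧ f v = y

theorem role_iff {G R : Gr} : (∃ r, IsRole (graph G) (graph R) r) ↔ ∃ f, Role G R f := by
  constructor
  · rintro ⟨r, hr⟩
    have hf : ∀ v (hv : v ∈ G.1), (if h : v ∈ G.1 then (r ⟨v, h⟩).1 else 0) = (r ⟨v, hv⟩).1 :=
      fun v hv => dif_pos hv
    refine ⟨fun v => if h : v ∈ G.1 then (r ⟨v, h⟩).1 else 0, ?_, ?_, ?_⟩
    · intro v hv
      simp only [hf v hv]
      exact (r ⟨v, hv⟩).2
    · intro u v huv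
      simp only [hf u huv.2.1, hf v huv.2.2.1]
      rw [← adj_iff, ← SimpleGraph.mem_neighborSet, ← hr]
      refine ⟨⟨v, huv.2.2.1⟩, ?_, rfl⟩
      rw [SimpleGraph.mem_neighborSet, adj_iff]
      exact huv
    · intro u hu y hy
      simp only [hf u hu] at hy
      have h1 : (⟨y, hy.2.2.1⟩ : {v // v ∈ R.1}) ∈ (graph R).neighborSet (r ⟨u, hu⟩) := by
        rw [SimpleGraph.mem_neighborSet, adj_iff]
        exact hy
      rw [← hr] at h1
      obtain ⟨v, hv, e⟩ := h1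
      rw [SimpleGraph.mem_neighborSet, adj_iff] at hv
      refine ⟨v.1, hv, ?_⟩
      simp only [hf v.1 v.2]
      rw [e]
  · rintro ⟨f, h⟩
    refine ⟨fun v => ⟨f v.1, h.mem v.1 v.2⟩, fun u => ?_⟩
    ext y
    rw [SimpleGraph.mem_neighborSet, adj_iff]
    constructor
    · rintro ⟨v, hv, rfl⟩
      rw [SimpleGraph.mem_neighborSet, adj_iff] at hv
      exact h.hom _ _ hv
    · intro hy
      obtain ⟨v, hv, e⟩ := h.sur u.1 u.2 y.1 hy
      refine ⟨⟨v, hv.2.2.1⟩, ?_, Subtype.ext e⟩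
      rw [SimpleGraph.mem_neighborSet, adj_iff]
      exact hv

/-! ### Paths between two hubs -/

section

variable (K B : ℕ) (ln a b : ℕ → ℕ)

/-- The cliques. -/
def cq (t : ℕ) : List ℕ :=
  [nm 1 (a (t / B)) 0, nm 1 (b (t / B)) 0] ++
    (if t % B < ln (t / B) then [nm 2 (t / B) (t % B), nm 2 (t / B) (t % B + 1)] else [])

/-- The graph: `K` paths, the path `q < K` has `ln q ≤ B` edges and its vertices are adjacent to the
hubs `a q` and `b q`. -/
def tr : Gr := cg (K * B) (cq B ln a b)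

variable {K B ln a b}

theorem hub_mem {t i : ℕ} : nm 1 i 0 ∈ cq B ln a b t ↔ i = a (t / B) ∨ i = b (t / B) := by
  unfold cq
  split_ifs <;> simp [nm_inj]

theorem pt_mem {t q s : ℕ} : nm 2 q s ∈ cq B ln a b t ↔
    t / B = q ∧ t % B < ln q ∧ (s = t % B ∨ s = t % B + 1) := by
  unfold cq
  split_ifs with h
  · simp only [List.mem_append, List.mem_cons, nm_inj, List.not_mem_nil, or_false]
    constructor
    · rintro ((⟨h1, -⟩ | ⟨h1, -⟩) | (⟨-, rfl, rfl⟩ | ⟨-, rfl, rfl⟩))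
      · omega
      · omega
      · exact ⟨rfl, h, Or.inl rfl⟩
      · exact ⟨rfl, h, Or.inr rfl⟩
    · rintro ⟨rfl, -, rfl | rfl⟩
      · right; left; simp
      · right; right; simp
  · simp only [List.mem_append, List.mem_cons, nm_inj, List.not_mem_nil, or_false]
    constructor
    · rintro (⟨h1, -⟩ | ⟨h1, -⟩) <;> omega
    · rintro ⟨rfl, h1, -⟩
      exact absurd h1 h

theorem cq_cases {t v : ℕ} (h : v ∈ cq B ln a b t) :
    (∃ i, v = nm 1 i 0 ∧ (i = a (t / B) ∨ i = b (t / B))) ∨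
      ∃ q s, v = nm 2 q s ∧ t / B = q ∧ t % B < ln q ∧ (s = t % B ∨ s = t % B + 1) := by
  have h0 := h
  unfold cq at h
  rw [List.mem_append] at h
  rcases h with h | h
  · simp only [List.mem_cons, List.not_mem_nil, or_false] at h
    rcases h with rfl | rfl
    · exact Or.inl ⟨_, rfl, Or.inl rfl⟩
    · exact Or.inl ⟨_, rfl, Or.inr rfl⟩
  · right
    split_ifs at h with h1
    · simp only [List.mem_cons, List.not_mem_nil, or_false] at h
      rcases h with rfl | rfl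
      · exact ⟨_, _, rfl, pt_mem.1 h0⟩
      · exact ⟨_, _, rfl, pt_mem.1 h0⟩
    · simp at h

theorem slot_lt {q s : ℕ} (hq : q < K) (hs : s < B) : q * B + s < K * B ∧
    (q * B + s) / B = q ∧ (q * B + s) % B = s := by
  have hB : 0 < B := by omega
  refine ⟨?_, ?_, ?_⟩
  · have : (q + 1) * B ≤ K * B := Nat.mul_le_mul_right _ hq
    rw [Nat.add_mul] at this
    omega
  · rw [Nat.add_comm, Nat.add_mul_div_right _ _ hB, Nat.div_eq_of_lt hs, Nat.zero_add]
  · rw [Nat.add_comm, Nat.add_mul_mod_self_right, Nat.mod_eq_of_lt hs]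

theorem div_lt {t : ℕ} (h : t < K * B) : t / B < K := by
  apply Nat.div_lt_of_lt_mul
  rwa [Nat.mul_comm]

theorem adj_hub_hub {i j : ℕ} (hB : 0 < B) : Adj (tr K B ln a b) (nm 1 i 0) (nm 1 j 0) ↔
    i ≠ j ∧ ∃ q < K, (i = a q ∨ i = b q) ∧ (j = a q ∨ j = b q) := by
  unfold tr
  rw [adj_cg]
  constructor
  · rintro ⟨h, t, ht, h1, h2⟩
    rw [hub_mem] at h1 h2
    exact ⟨fun e => h (by rw [e]), t / B, div_lt ht, h1, h2⟩
  · rintro ⟨h, q, hq, h1, h2⟩
    obtain ⟨a1, a2, -⟩ := slot_lt (s := 0) hq hB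
    refine ⟨fun e => h (nm_inj.1 e).2.1, _, a1, ?_, ?_⟩
    · rw [hub_mem, a2]; exact h1
    · rw [hub_mem, a2]; exact h2

theorem adj_hub_pt {i q s : ℕ} (hln : ∀ q < K, ln q ≤ B) :
    Adj (tr K B ln a b) (nm 1 i 0) (nm 2 q s) ↔
      q < K ∧ 0 < ln q ∧ s ≤ ln q ∧ (i = a q ∨ i = b q) := by
  unfold tr
  rw [adj_cg]
  constructor
  · rintro ⟨-, t, ht, h1, h2⟩
    rw [hub_mem] at h1
    rw [pt_mem] at h2
    obtain ⟨rfl, h3, h4⟩ := h2
    exact ⟨div_lt ht, by omega, by omega, h1⟩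
  · rintro ⟨hq, h1, h2, h3⟩
    have h4 := hln q hq
    refine ⟨fun e => by have := (nm_inj.1 e).1; omega, ?_⟩
    by_cases hs : s < ln q
    · obtain ⟨a1, a2, a3⟩ := slot_lt (B := B) (s := s) hq (by omega)
      refine ⟨_, a1, ?_, ?_⟩
      · rw [hub_mem, a2]; exact h3
      · rw [pt_mem, a2, a3]; exact ⟨rfl, hs, Or.inl rfl⟩
    · obtain ⟨a1, a2, a3⟩ := slot_lt (B := B) (s := s - 1) hq (by omega)
      refine ⟨_, a1, ?_, ?_⟩
      · rw [hub_mem, a2]; exact h3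
      · rw [pt_mem, a2, a3]; exact ⟨rfl, by omega, Or.inr (by omega)⟩

theorem adj_pt_pt {q s q' s' : ℕ} (hln : ∀ q < K, ln q ≤ B) :
    Adj (tr K B ln a b) (nm 2 q s) (nm 2 q' s') ↔
      q = q' ∧ q < K ∧ s ≤ ln q ∧ s' ≤ ln q ∧ (s' = s + 1 ∨ s = s' + 1) := by
  unfold tr
  rw [adj_cg]
  constructor
  · rintro ⟨hne, t, ht, h1, h2⟩
    rw [pt_mem] at h1 h2
    obtain ⟨rfl, h3, h4⟩ := h1
    obtain ⟨rfl, h5, h6⟩ := h2
    have : s ≠ s' := fun e => hne (by rw [e])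
    exact ⟨rfl, div_lt ht, by omega, by omega, by omega⟩
  · rintro ⟨rfl, hq, h1, h2, h3⟩
    have h4 := hln q hq
    refine ⟨fun e => by have := (nm_inj.1 e).2.2; omega, ?_⟩
    rcases h3 with rfl | rfl
    · obtain ⟨a1, a2, a3⟩ := slot_lt (B := B) (s := s) hq (by omega)
      refine ⟨_, a1, ?_, ?_⟩
      · rw [pt_mem, a2, a3]; exact ⟨rfl, by omega, Or.inl rfl⟩
      · rw [pt_mem, a2, a3]; exact ⟨rfl, by omega, Or.inr rfl⟩
    · obtain ⟨a1, a2, a3⟩ := slot_lt (B := B) (s := s') hq (by omega)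
      refine ⟨_, a1, ?_, ?_⟩
      · rw [pt_mem, a2, a3]; exact ⟨rfl, by omega, Or.inr rfl⟩
      · rw [pt_mem, a2, a3]; exact ⟨rfl, by omega, Or.inl rfl⟩

theorem mem_hub {i : ℕ} (hB : 0 < B) : nm 1 i 0 ∈ (tr K B ln a b).1 ↔
    ∃ q < K, i = a q ∨ i = b q := by
  unfold tr
  rw [mem_cg]
  constructor
  · rintro ⟨t, ht, h1⟩
    rw [hub_mem] at h1
    exact ⟨t / B, div_lt ht, h1⟩
  · rintro ⟨q, hq, h1⟩
    obtain ⟨a1, a2, -⟩ := slot_lt (s := 0) hq hB
    exact ⟨_, a1, by rw [hub_mem, a2]; exact h1⟩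

theorem mem_pt {q s : ℕ} (hln : ∀ q < K, ln q ≤ B) : nm 2 q s ∈ (tr K B ln a b).1 ↔
    q < K ∧ 0 < ln q ∧ s ≤ ln q := by
  constructor
  · intro h
    unfold tr at h
    rw [mem_cg] at h
    obtain ⟨t, ht, h1⟩ := h
    rw [pt_mem] at h1
    obtain ⟨rfl, h3, h4⟩ := h1
    exact ⟨div_lt ht, by omega, by omega⟩
  · rintro ⟨h1, h2, h3⟩
    exact ((adj_hub_pt hln).2 ⟨h1, h2, h3, Or.inl rfl⟩).2.2.1

theorem tr_cases {v : ℕ} (h : v ∈ (tr K B ln a b).1) : (∃ i, v = nm 1 i 0) ∨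
    ∃ q s, v = nm 2 q s := by
  unfold tr at h
  rw [mem_cg] at h
  obtain ⟨t, -, h1⟩ := h
  rcases cq_cases h1 with ⟨i, rfl, -⟩ | ⟨q, s, rfl, -⟩
  · exact Or.inl ⟨i, rfl⟩
  · exact Or.inr ⟨q, s, rfl⟩

/-- If the intervals of the hubs are intervals then the graph is an interval graph. -/
theorem interval_tr (h : ∀ i q₁ q₂ q₃, q₁ ≤ q₂ → q₂ ≤ q₃ → (i = a q₁ ∨ i = b q₁) →
    (i = a q₃ ∨ i = b q₃) → (i = a q₂ ∨ i = b q₂)) :
    IsIntervalGraph (graph (tr K B ln a b)) := by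
  unfold tr
  refine interval_cg fun v t₁ t₂ t₃ h1 h2 _ h4 h5 => ?_
  have hB : 0 < B ∨ B = 0 := by omega
  rcases cq_cases h4 with ⟨i, rfl, h6⟩ | ⟨q, s, rfl, h6, h7, h8⟩
  · rw [hub_mem] at h5 ⊢
    exact h i _ _ _ (Nat.div_le_div_right h1) (Nat.div_le_div_right h2) h6 h5
  · rw [pt_mem] at h5 ⊢
    obtain ⟨h9, h10, h11⟩ := h5
    have e : t₂ / B = q := by
      have a1 := Nat.div_le_div_right (c := B) h1
      have a2 := Nat.div_le_div_right (c := B) h2
      omega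
    have d1 := Nat.div_add_mod t₁ B
    have d2 := Nat.div_add_mod t₂ B
    have d3 := Nat.div_add_mod t₃ B
    rw [h6] at d1
    rw [e] at d2
    rw [h9] at d3
    refine ⟨e, by omega, by omega⟩

end

end Pool.Agent.NPC.R536RA
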