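import Mathlib

/-!
# Locally surjective homomorphisms between paths
-/

set_option autoImplicit false

namespace Pool.Agent.NPC.R536RA

/-- The start of a locally surjective homomorphism between paths. -/
theorem fold_start {N L : ℕ} {g : ℕ → ℕ} (h0 : g 0 = 0)
    (h2 : ∀ s < L, g (s + 1) = g s + 1 ∨ g s = g (s + 1) + 1)
    (h3 : ∀ s ≤ L, 0 < s → ∀ b ≤ N, (b = g s + 1 ∨ g s = b + 1) →
      (s < L ∧ g (s + 1) = b) ∨ g (s - 1) = b) :
    ∀ s, s ≤ L → s ≤ N → g s = s := by
  intro s
  induction s using Nat.strong_induction_on with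
  | _ s ih =>
    intro hs hN
    rcases Nat.eq_zero_or_pos s with rfl | hpos
    · exact h0
    · obtain ⟨t, rfl⟩ : ∃ t, s = t + 1 := ⟨s - 1, by omega⟩
      have h1 := ih t (by omega) (by omega) (by omega)
      rcases Nat.eq_zero_or_pos t with rfl | ht
      · have := h2 0 (by omega)
        rw [Nat.zero_add] at this ⊢
        omega
      · rcases h3 t (by omega) ht (t + 1) hN (Or.inl (by omega)) with h | h
        · exact h.2
        · have := ih (t - 1) (by omega) (by omega) (by omega)
          omega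

/-- A locally surjective homomorphism from a path with `L` edges to a path with `N` edges that
starts at the start exists only if `N ∣ L`. -/
theorem fold_dvd_aux {N : ℕ} (hN : 0 < N) : ∀ (L : ℕ) (g : ℕ → ℕ), g 0 = 0 →
    (∀ s ≤ L, g s ≤ N) →
    (∀ s < L, g (s + 1) = g s + 1 ∨ g s = g (s + 1) + 1) →
    (∀ s ≤ L, 0 < s → ∀ b ≤ N, (b = g s + 1 ∨ g s = b + 1) →
      (s < L ∧ g (s + 1) = b) ∨ g (s - 1) = b) → N ∣ L := by
  intro L
  induction L using Nat.strong_induction_on with
  | _ L ih =>
    intro g h0 h1 h2 h3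
    have hst := fold_start h0 h2 h3
    by_cases hL : L < N
    · rcases Nat.eq_zero_or_pos L with rfl | hpos
      · exact dvd_zero _
      · exfalso
        have a1 := hst L le_rfl hL.le
        have a2 := hst (L - 1) (by omega) (by omega)
        rcases h3 L le_rfl hpos (L + 1) hL (Or.inl (by omega)) with h | h
        · omega
        · omega
    · push Not at hL
      have hgN : g N = N := hst N hL le_rfl
      have := ih (L - N) (by omega) (fun s => N - g (s + N)) (by simp [hgN])
        (fun s _ => Nat.sub_le _ _) ?_ ?_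
      · have h4 : L = (L - N) + N := by omega
        rw [h4]
        exact (Nat.dvd_add_right this).2 (dvd_refl N)
      · intro s hs
        have a1 := h1 (s + N) (by omega)
        have a2 := h1 (s + 1 + N) (by omega)
        have a3 := h2 (s + N) (by omega)
        rw [show s + N + 1 = s + 1 + N by ring] at a3
        omega
      · intro s hs hpos b hb hb'
        have a1 := h1 (s + N) (by omega)
        have a3 := h3 (s + N) (by omega) (by omega) (N - b) (Nat.sub_le _ _) (by omega)
        rw [show s + N + 1 = s + 1 + N by ring, show s + N - 1 = s - 1 + N by omega] at a3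
        rcases a3 with ⟨h4, h5⟩ | h5
        · left
          exact ⟨by omega, by omega⟩
        · right
          omega

/-- A locally surjective homomorphism from a path with `L` edges to a path with `N` edges exists
only if `N ∣ L`. -/
theorem fold_dvd {N L : ℕ} (hN : 0 < N) {g : ℕ → ℕ} (h1 : ∀ s ≤ L, g s ≤ N)
    (h2 : ∀ s < L, g (s + 1) = g s + 1 ∨ g s = g (s + 1) + 1)
    (h3 : ∀ s ≤ L, ∀ b ≤ N, (b = g s + 1 ∨ g s = b + 1) →
      (s < L ∧ g (s + 1) = b) ∨ (0 < s ∧ g (s - 1) = b)) : N ∣ L := by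
  have h00 := h1 0 (Nat.zero_le _)
  have h0 : g 0 = 0 ∨ g 0 = N := by
    by_contra hc
    push Not at hc
    have a1 := h3 0 (Nat.zero_le _) (g 0 + 1) (by omega) (Or.inl rfl)
    have a2 := h3 0 (Nat.zero_le _) (g 0 - 1) (by omega) (Or.inr (by omega))
    omega
  rcases h0 with h0 | h0
  · refine fold_dvd_aux hN L g h0 h1 h2 fun s hs _ b hb hb' => ?_
    rcases h3 s hs b hb hb' with h | h
    · exact Or.inl h
    · exact Or.inr h.2
  · refine fold_dvd_aux hN L (fun s => N - g s) (by simp [h0]) (fun s _ => Nat.sub_le _ _) ?_ ?_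
    · intro s hs
      have a1 := h1 s hs.le
      have a2 := h1 (s + 1) hs
      have a3 := h2 s hs
      omega
    · intro s hs _ b hb hb'
      have a1 := h1 s hs
      rcases h3 s hs (N - b) (Nat.sub_le _ _) (by omega) with h | h
      · left
        exact ⟨h.1, by omega⟩
      · right
        omega

/-! ### Triangular waves -/

/-- The triangular wave. -/
def tri (N s : ℕ) : ℕ := if s % (2 * N) ≤ N then s % (2 * N) else 2 * N - s % (2 * N)

theorem succ_mod {N s : ℕ} (hN : 0 < N) : (s + 1) % (2 * N) =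
    if s % (2 * N) + 1 = 2 * N then 0 else s % (2 * N) + 1 := by
  have h1 := Nat.mod_lt s (show 0 < 2 * N by omega)
  rw [Nat.add_mod]
  by_cases h : s % (2 * N) + 1 = 2 * N
  · rw [if_pos h]
    rcases Nat.lt_or_ge 1 (2 * N) with h2 | h2
    · rw [Nat.mod_eq_of_lt h2, h, Nat.mod_self]
    · omega
  · rw [if_neg h, Nat.mod_eq_of_lt (show 1 < 2 * N by omega), Nat.mod_eq_of_lt (by omega)]

theorem tri_le {N s : ℕ} : tri N s ≤ N := by
  unfold tri
  split_ifs <;> omega

theorem tri_succ {N s : ℕ} (hN : 0 < N) :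
    tri N (s + 1) = tri N s + 1 ∨ tri N s = tri N (s + 1) + 1 := by
  have h1 := Nat.mod_lt s (show 0 < 2 * N by omega)
  unfold tri
  rw [succ_mod hN]
  split_ifs <;> omega

theorem tri_small {N s : ℕ} (h : s ≤ N) : tri N s = s := by
  unfold tri
  rcases Nat.eq_zero_or_pos N with rfl | hN
  · have : s = 0 := by omega
    subst this
    simp
  · rw [Nat.mod_eq_of_lt (by omega), if_pos h]

theorem succ_mod' {N : ℕ} (hN : 0 < N) (s : ℕ) :
    (s % (2 * N) + 1 = 2 * N ∧ (s + 1) % (2 * N) = 0) ∨
      (s % (2 * N) + 1 < 2 * N ∧ (s + 1) % (2 * N) = s % (2 * N) + 1) := by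
  have h1 := Nat.mod_lt s (show 0 < 2 * N by omega)
  rw [succ_mod hN]
  split_ifs with h
  · exact Or.inl ⟨h, rfl⟩
  · exact Or.inr ⟨by omega, rfl⟩

theorem tri_spec (N s : ℕ) : (s % (2 * N) ≤ N ∧ tri N s = s % (2 * N)) ∨
    (N < s % (2 * N) ∧ tri N s = 2 * N - s % (2 * N)) := by
  unfold tri
  split_ifs with h
  · exact Or.inl ⟨h, rfl⟩
  · exact Or.inr ⟨by omega, rfl⟩

theorem end_mod {N x : ℕ} (h : N ∣ x) : x % (2 * N) = 0 ∨ x % (2 * N) = N := by
  obtain ⟨k, rfl⟩ := h
  have : N * k % (2 * N) = N * (k % 2) := by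
    rw [Nat.mul_comm 2 N, Nat.mul_mod_mul_left]
  rw [this]
  have h2 : k % 2 = 0 ∨ k % 2 = 1 := by omega
  rcases h2 with e | e <;> rw [e] <;> simp

theorem tri_sur {N L s b : ℕ} (hN : 0 < N) (hd : N ∣ L) (hL : 0 < L) (hs : s ≤ L) (hb : b ≤ N)
    (h : b = tri N s + 1 ∨ tri N s = b + 1) :
    (s < L ∧ tri N (s + 1) = b) ∨ (0 < s ∧ tri N (s - 1) = b) := by
  rcases Nat.eq_zero_or_pos s with rfl | hpos
  · left
    have h1 := tri_spec N 0
    have h2 := tri_spec N 1
    have h3 := succ_mod' hN 0
    rw [Nat.zero_mod, Nat.zero_add] at h3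
    rw [Nat.zero_mod] at h1
    rw [Nat.zero_add]
    omega
  · obtain ⟨t, rfl⟩ : ∃ t, s = t + 1 := ⟨s - 1, by omega⟩
    have b1 := Nat.mod_lt t (show 0 < 2 * N by omega)
    have b2 := Nat.mod_lt (t + 1) (show 0 < 2 * N by omega)
    have b3 := Nat.mod_lt (t + 1 + 1) (show 0 < 2 * N by omega)
    have h1 := tri_spec N t
    have h2 := tri_spec N (t + 1)
    have h3 := tri_spec N (t + 1 + 1)
    have h4 := succ_mod' hN t
    have h5 := succ_mod' hN (t + 1)
    rw [Nat.add_sub_cancel]
    by_cases hlt : t + 1 < L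
    · generalize t % (2 * N) = r1 at *
      generalize (t + 1) % (2 * N) = r2 at *
      generalize (t + 1 + 1) % (2 * N) = r3 at *
      omega
    · have e : t + 1 = L := by omega
      have h6 := end_mod (e ▸ hd)
      right
      generalize t % (2 * N) = r1 at *
      generalize (t + 1) % (2 * N) = r2 at *
      omega

end Pool.Agent.NPC.R536RA
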