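import Pool.Agent.R536.RA.Red

/-!
# From assignments to role assignments
-/

set_option autoImplicit false

namespace Pool.Agent.NPC.R536RA

open Pool.Agent.NPC.R536CS Pool.Agent.NPC.R536UD

theorem adj_symm {G : Gr} {u v : ℕ} (h : Adj G u v) : Adj G v u :=
  ⟨h.1.symm, h.2.2.1, h.2.1, h.2.2.2.symm⟩

/-- The role assignment given by labels of the items. -/
def rf (m : ℕ) (L : ℕ → ℕ → ℕ) (v : ℕ) : ℕ :=
  if v.unpair.1 = 1 then nm 1 (v.unpair.2.unpair.1 % 2) 0
  else nm 2 (L (v.unpair.2.unpair.1 / (6 * m)) (v.unpair.2.unpair.1 % (6 * m)))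
    (tri (MM m + L (v.unpair.2.unpair.1 / (6 * m)) (v.unpair.2.unpair.1 % (6 * m)))
      v.unpair.2.unpair.2)

theorem rf_hub {m : ℕ} {L : ℕ → ℕ → ℕ} (i : ℕ) : rf m L (nm 1 i 0) = nm 1 (i % 2) 0 := by
  unfold rf
  simp [nm]

theorem rf_pt {m : ℕ} {L : ℕ → ℕ → ℕ} (q s : ℕ) : rf m L (nm 2 q s) =
    nm 2 (L (q / (6 * m)) (q % (6 * m))) (tri (MM m + L (q / (6 * m)) (q % (6 * m))) s) := by
  unfold rf
  simp [nm]

variable {m : ℕ} {vi : ℕ → ℕ} {sg : ℕ → Bool}

theorem role_of (hvi : ∀ r < 3 * m, vi r < 3 * m) {L : ℕ → ℕ → ℕ}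
    (h1 : ∀ c < 2 * m + 3, ∀ i < ni m c, L c i < 6 * m ∧ MM m + L c i ∣ le m vi sg c i)
    (h2 : ∀ w ≤ 2 * m + 3, ∀ l < 6 * m, ∃ c i, (c = w ∨ c + 1 = w) ∧ c < 2 * m + 3 ∧
      i < ni m c ∧ L c i = l) : Role (GG m vi sg) (RR m) (rf m L) := by
  have hB : 0 < MM m + 6 * m := MM_pos _
  have hlab : ∀ q < (2 * m + 3) * (6 * m), 0 < ln m vi sg q →
      L (q / (6 * m)) (q % (6 * m)) < 6 * m ∧
        MM m + L (q / (6 * m)) (q % (6 * m)) ∣ ln m vi sg q := by
    intro q hq hln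
    obtain ⟨h5, h6, h7⟩ := item' hq hln
    obtain ⟨h8, h9⟩ := h1 _ h5 _ h6
    refine ⟨h8, ?_⟩
    unfold ln
    rw [if_pos h6]
    exact h9
  have hpos : ∀ q < (2 * m + 3) * (6 * m), 0 < 6 * m := by
    intro q hq
    rcases Nat.eq_zero_or_pos m with rfl | hm
    · simp at hq
    · omega
  refine ⟨?_, ?_, ?_⟩
  · intro v hv
    rcases tr_cases hv with ⟨i, rfl⟩ | ⟨q, s, rfl⟩
    · rw [rf_hub]
      obtain ⟨q, hq, -⟩ := (mem_hub BB_pos).1 hv
      exact (mem_hub hB).2 ⟨0, hpos q hq, by omega⟩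
    · rw [rf_pt]
      obtain ⟨hq, hln, -⟩ := (mem_pt (ln_le hvi)).1 hv
      exact (mem_pt lnR).2 ⟨(hlab q hq hln).1, MM_pos _, tri_le⟩
  · have hhp : ∀ i q s, Adj (GG m vi sg) (nm 1 i 0) (nm 2 q s) →
        Adj (RR m) (rf m L (nm 1 i 0)) (rf m L (nm 2 q s)) := by
      intro i q s huv
      obtain ⟨hq, hln, -, -⟩ := (adj_hub_pt (ln_le hvi)).1 huv
      rw [rf_hub, rf_pt]
      exact (adj_hub_pt lnR).2 ⟨(hlab q hq hln).1, MM_pos _, tri_le, by omega⟩
    intro u v huv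
    rcases tr_cases huv.2.1 with ⟨i, rfl⟩ | ⟨q, s, rfl⟩ <;>
      rcases tr_cases huv.2.2.1 with ⟨i', rfl⟩ | ⟨q', s', rfl⟩
    · obtain ⟨hne, q, hq, h3, h4⟩ := (adj_hub_hub BB_pos).1 huv
      rw [rf_hub, rf_hub]
      refine (adj_hub_hub hB).2 ⟨?_, 0, hpos q hq, by omega, by omega⟩
      generalize q / (6 * m) = c at *
      omega
    · exact hhp _ _ _ huv
    · exact adj_symm (hhp _ _ _ (adj_symm huv))
    · obtain ⟨rfl, hq, h3, h4, h5⟩ := (adj_pt_pt (ln_le hvi)).1 huv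
      rw [rf_pt, rf_pt]
      have hln : 0 < ln m vi sg q := by omega
      refine (adj_pt_pt lnR).2 ⟨rfl, (hlab q hq hln).1, tri_le, tri_le, ?_⟩
      rcases h5 with rfl | rfl
      · exact tri_succ (MM_pos _)
      · exact (tri_succ (MM_pos _)).symm
  · intro u hu y hy
    rcases tr_cases hu with ⟨w, rfl⟩ | ⟨q, s, rfl⟩
    · obtain ⟨q, hq, hw⟩ := (mem_hub BB_pos).1 hu
      have hc : q / (6 * m) < 2 * m + 3 := Nat.div_lt_of_lt_mul (by rwa [Nat.mul_comm])
      rw [rf_hub] at hy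
      rcases tr_cases hy.2.2.1 with ⟨j, rfl⟩ | ⟨l, b, rfl⟩
      · obtain ⟨hne, -, -, -, hj⟩ := (adj_hub_hub hB).1 hy
        refine ⟨nm 1 (2 * (q / (6 * m)) + 1 - w) 0, (adj_hub_hub BB_pos).2
          ⟨by omega, q, hq, hw, by omega⟩, ?_⟩
        rw [rf_hub]
        congr 1
        generalize q / (6 * m) = c at *
        omega
      · obtain ⟨hl, -, hb, -⟩ := (adj_hub_pt lnR).1 hy
        obtain ⟨c, i, hcw, hc', hi, e⟩ := h2 w (by omega) l hl
        obtain ⟨h3, h4, h5, h6⟩ := item (vi := vi) (sg := sg) hc' hi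
        have hle : MM m + l ≤ le m vi sg c i := by
          rw [← e]
          exact Nat.le_of_dvd le_pos (h1 c hc' i hi).2
        refine ⟨nm 2 (c * (6 * m) + i) b, (adj_hub_pt (ln_le hvi)).2
          ⟨h3, by rw [h6]; exact le_pos, by rw [h6]; omega, by rw [h4]; omega⟩, ?_⟩
        rw [rf_pt, h4, h5, e, tri_small hb]
    · obtain ⟨hq, hln, hs⟩ := (mem_pt (ln_le hvi)).1 hu
      rw [rf_pt] at hy
      rcases tr_cases hy.2.2.1 with ⟨j, rfl⟩ | ⟨l, b, rfl⟩
      · obtain ⟨-, -, -, hj⟩ := (adj_hub_pt lnR).1 (adj_symm hy)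
        refine ⟨nm 1 (if (q / (6 * m)) % 2 = j then q / (6 * m) else q / (6 * m) + 1) 0,
          adj_symm ((adj_hub_pt (ln_le hvi)).2 ⟨hq, hln, hs, ?_⟩), ?_⟩
        · split_ifs
          · exact Or.inl rfl
          · exact Or.inr rfl
        · rw [rf_hub]
          congr 1
          generalize q / (6 * m) = c at *
          split_ifs <;> omega
      · obtain ⟨e, hl, -, hb, hb'⟩ := (adj_pt_pt lnR).1 hy
        have hd := (hlab q hq hln).2
        rcases tri_sur (MM_pos _) hd hln hs (e ▸ hb) hb' with ⟨h3, h4⟩ | ⟨h3, h4⟩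
        · exact ⟨nm 2 q (s + 1), (adj_pt_pt (ln_le hvi)).2 ⟨rfl, hq, hs, h3, Or.inl rfl⟩, by
            rw [rf_pt, h4, e]⟩
        · exact ⟨nm 2 q (s - 1), (adj_pt_pt (ln_le hvi)).2 ⟨rfl, hq, hs, by omega,
            Or.inr (by omega)⟩, by rw [rf_pt, h4, e]⟩

/-! ### The labels -/

section

variable (m vi) (τ : ℕ → Bool) (ch : ℕ → ℕ)

/-- The exchange of two indices. -/
def sw (j i : ℕ) : ℕ := if i = vi (3 * j) then vi (ch j) else if i = vi (ch j) then vi (3 * j) else i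

/-- The labels. -/
def lam (c i : ℕ) : ℕ :=
  if c = 0 ∨ c = 2 * m + 2 then i
  else if c % 2 = 1 then 2 * i + (bif τ i then 1 else 0)
  else 2 * sw vi ch (c / 2 - 1) i + (bif τ (sw vi ch (c / 2 - 1) i) then 0 else 1)

variable {m vi τ ch}

theorem sw_sw (j i : ℕ) : sw vi ch j (sw vi ch j i) = i := by
  unfold sw
  split_ifs <;> simp_all

theorem bb_cases (b : Bool) : (bif b then 1 else 0 : ℕ) = 0 ∨ (bif b then 1 else 0 : ℕ) = 1 := by
  cases b <;> simp

theorem bb_cases' (b : Bool) : (bif b then 0 else 1 : ℕ) = 0 ∨ (bif b then 0 else 1 : ℕ) = 1 := by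
  cases b <;> simp

theorem lam_it (hch : ∀ j < m, ch j / 3 = j) (hτ : ∀ j < m, τ (vi (ch j)) = sg (ch j))
    {c i : ℕ} (hc : c < 2 * m + 3) (hi : i < ni m c) :
    ∃ k < 6, lam m vi τ ch c i = it m vi sg c i k := by
  unfold lam it
  by_cases h1 : c = 0 ∨ c = 2 * m + 2
  · simp only [if_pos h1]
    exact ⟨0, by norm_num, trivial⟩
  · simp only [if_neg h1]
    by_cases h2 : c % 2 = 1
    · simp only [if_pos h2]
      refine ⟨bif τ i then 1 else 0, ?_, ?_⟩
      · rcases bb_cases (τ i) with e | e <;> rw [e] <;> norm_num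
      · rcases bb_cases (τ i) with e | e <;> rw [e]
    · simp only [if_neg h2]
      set j := c / 2 - 1 with hj
      have hjm : j < m := by omega
      have h3 := hch j hjm
      by_cases h4 : i = vi (3 * j)
      · simp only [if_pos h4]
        refine ⟨ch j % 3, by omega, ?_⟩
        rw [show 3 * j + ch j % 3 % 3 = ch j by omega]
        unfold sw lt
        rw [if_pos h4, hτ j hjm]
      · simp only [if_neg h4]
        have hb := bb_cases' (τ (sw vi ch j i))
        by_cases h5 : i = vi (3 * j + 1) ∨ i = vi (3 * j + 2)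
        · simp only [if_pos h5]
          by_cases h6 : i = vi (ch j)
          · refine ⟨bif τ (sw vi ch j i) then 0 else 1, by omega, ?_⟩
            have e : sw vi ch j i = vi (3 * j) := by unfold sw; rw [if_neg h4, if_pos h6]
            rcases hb with e' | e' <;> rw [e', e] <;> simp
          · have e : sw vi ch j i = i := by unfold sw; rw [if_neg h4, if_neg h6]
            rcases h5 with h5 | h5
            · refine ⟨2 + (bif τ (sw vi ch j i) then 0 else 1), by omega, ?_⟩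
              rcases hb with e' | e' <;> rw [e', e] <;> simp [← h5]
            · refine ⟨4 + (bif τ (sw vi ch j i) then 0 else 1), by omega, ?_⟩
              rcases hb with e' | e' <;> rw [e', e] <;> simp [← h5]
        · simp only [if_neg h5]
          have h6 : i ≠ vi (ch j) := by
            intro e
            have h7 : ch j = 3 * j ∨ ch j = 3 * j + 1 ∨ ch j = 3 * j + 2 := by omega
            rcases h7 with h7 | h7 | h7 <;> rw [h7] at e
            · exact h4 e
            · exact h5 (Or.inl e)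
            · exact h5 (Or.inr e)
          have e : sw vi ch j i = i := by unfold sw; rw [if_neg h4, if_neg h6]
          refine ⟨bif τ (sw vi ch j i) then 0 else 1, by omega, ?_⟩
          rcases hb with e' | e' <;> rw [e', e]

theorem lam_cover (hvi : ∀ r < 3 * m, vi r < 3 * m) (hch : ∀ j < m, ch j / 3 = j) {w l : ℕ}
    (hw : w ≤ 2 * m + 3) (hl : l < 6 * m) :
    ∃ c i, (c = w ∨ c + 1 = w) ∧ c < 2 * m + 3 ∧ i < ni m c ∧ lam m vi τ ch c i = l := by
  have hfull : ∀ c, (c = 0 ∨ c = 2 * m + 2) → l < ni m c ∧ lam m vi τ ch c l = l := by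
    intro c hc
    unfold ni lam
    simp only [if_pos hc]
    exact ⟨hl, trivial⟩
  have hni : ∀ c, c ≠ 0 → c ≠ 2 * m + 2 → ni m c = 3 * m := fun c h h' => by
    unfold ni
    rw [if_neg (by tauto)]
  rcases Nat.lt_or_ge w 2 with h1 | h1
  · exact ⟨0, l, by omega, by omega, hfull 0 (Or.inl rfl)⟩
  rcases Nat.lt_or_ge w (2 * m + 2) with h2 | h2
  swap
  · exact ⟨2 * m + 2, l, by omega, by omega, hfull _ (Or.inr rfl)⟩
  -- a cell of the variables and a cell of a clause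
  obtain ⟨j, hj, hjw, j', hj', hjw'⟩ : ∃ j < m, (2 * j + 2 = w ∨ 2 * j + 2 + 1 = w) ∧
      ∃ j' ≤ m, (2 * j' + 1 = w ∨ 2 * j' + 1 + 1 = w) := by
    rcases Nat.even_or_odd' w with ⟨t, rfl | rfl⟩
    · exact ⟨t - 1, by omega, by omega, t - 1, by omega, by omega⟩
    · exact ⟨t - 1, by omega, by omega, t, by omega, by omega⟩
  by_cases hlit : l % 2 = (bif τ (l / 2) then 1 else 0)
  · refine ⟨2 * j' + 1, l / 2, hjw', by omega, by rw [hni _ (by omega) (by omega)]; omega, ?_⟩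
    unfold lam
    rw [if_neg (by omega), if_pos (by omega), ← hlit]
    omega
  · have hsw : sw vi ch j (l / 2) < 3 * m := by
      have h3 := hch j hj
      unfold sw
      split_ifs
      · exact hvi _ (by omega)
      · exact hvi _ (by omega)
      · omega
    refine ⟨2 * j + 2, sw vi ch j (l / 2), hjw, by omega,
      by rw [hni _ (by omega) (by omega)]; exact hsw, ?_⟩
    unfold lam
    rw [if_neg (by omega), if_neg (by omega), show (2 * j + 2) / 2 - 1 = j by omega, sw_sw]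
    have h4 : l % 2 = 0 ∨ l % 2 = 1 := by omega
    cases hb : τ (l / 2)
    · rw [hb] at hlit
      simp only [cond_false] at hlit ⊢
      omega
    · rw [hb] at hlit
      simp only [cond_true] at hlit ⊢
      omega

end

theorem role_of_sat (hvi : ∀ r < 3 * m, vi r < 3 * m) {τ : ℕ → Bool} {ch : ℕ → ℕ}
    (hch : ∀ j < m, ch j / 3 = j) (hτ : ∀ j < m, τ (vi (ch j)) = sg (ch j)) :
    ∃ f, Role (GG m vi sg) (RR m) f := by
  refine ⟨_, role_of hvi (L := lam m vi τ ch) (fun c hc i hi => ?_) (fun w hw l hl =>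
    lam_cover hvi hch hw hl)⟩
  obtain ⟨k, hk, e⟩ := lam_it (sg := sg) hch hτ hc hi
  rw [e]
  exact ⟨it_lt hvi hc hi hk, it_dvd hk⟩

end Pool.Agent.NPC.R536RA
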