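import Pool.Agent.R536.RA.Poly

/-!
# Membership in NP
-/

set_option autoImplicit false

namespace Pool.Agent.NPC.R536RA

open Pool.Agent.NPC.R536CS Pool.Agent.NPC.R536UD

/-- The test for the intervals. -/
def RI (G : Gr) (w : Wt) : Prop :=
  ∀ u ∈ G.1, wl w u ≤ wr w u ∧ ∀ v ∈ G.1, u = v ∨
    ((Adj G u v ∧ (wl w u ≤ wr w v ∧ wl w v ≤ wr w u)) ∨
      (¬ Adj G u v ∧ ¬ (wl w u ≤ wr w v ∧ wl w v ≤ wr w u)))

theorem pp_RI : PP (fun x : Gr × Wt => RI x.1 x.2) := by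
  unfold RI
  refine PP.ball (l := fun x : Gr × Wt => x.1.1)
    (r := fun x u => wl x.2 u ≤ wr x.2 u ∧ ∀ v ∈ x.1.1, u = v ∨
      ((Adj x.1 u v ∧ (wl x.2 u ≤ wr x.2 v ∧ wl x.2 v ≤ wr x.2 u)) ∨
      (¬ Adj x.1 u v ∧ ¬ (wl x.2 u ≤ wr x.2 v ∧ wl x.2 v ≤ wr x.2 u)))) (by fun_prop) ?_
  refine PP.and (PP.le (by fun_prop) (by fun_prop)) ?_
  refine PP.ball (l := fun x : (Gr × Wt) × ℕ => x.1.1.1)
    (r := fun x v => x.2 = v ∨
      ((Adj x.1.1 x.2 v ∧ (wl x.1.2 x.2 ≤ wr x.1.2 v ∧ wl x.1.2 v ≤ wr x.1.2 x.2)) ∨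
      (¬ Adj x.1.1 x.2 v ∧ ¬ (wl x.1.2 x.2 ≤ wr x.1.2 v ∧ wl x.1.2 v ≤ wr x.1.2 x.2))))
    (by fun_prop) ?_
  have h1 : PP (fun x : ((Gr × Wt) × ℕ) × ℕ => Adj x.1.1.1 x.1.2 x.2) :=
    pp_adj (by fun_prop) (by fun_prop) (by fun_prop)
  have h2 : PP (fun x : ((Gr × Wt) × ℕ) × ℕ =>
      wl x.1.1.2 x.1.2 ≤ wr x.1.1.2 x.2 ∧ wl x.1.1.2 x.2 ≤ wr x.1.1.2 x.1.2) :=
    PP.and (PP.le (by fun_prop) (by fun_prop)) (PP.le (by fun_prop) (by fun_prop))
  exact PP.or (PP.eq (by fun_prop) (by fun_prop)) (PP.or (PP.and h1 h2)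
    (PP.and (PP.not h1) (PP.not h2)))

theorem RI_sound {G : Gr} {w : Wt} (h : RI G w) : IsIntervalGraph (graph G) := by
  refine ⟨fun v => (wl w v.1 : ℝ), fun v => (wr w v.1 : ℝ), fun v => ?_, fun u v => ?_⟩
  · exact Nat.cast_le.2 (h v.1 v.2).1
  · rw [adj_iff]
    have hu := (h u.1 u.2).1
    have hv := (h v.1 v.2).1
    have key : (Set.Icc (wl w u.1 : ℝ) (wr w u.1) ∩ Set.Icc (wl w v.1 : ℝ) (wr w v.1)).Nonempty ↔
        wl w u.1 ≤ wr w v.1 ∧ wl w v.1 ≤ wr w u.1 := by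
      constructor
      · rintro ⟨x, ⟨h1, h2⟩, h3, h4⟩
        exact ⟨Nat.cast_le.1 (h1.trans h4), Nat.cast_le.1 (h3.trans h2)⟩
      · rintro ⟨h1, h2⟩
        rcases le_total (wl w u.1) (wl w v.1) with h3 | h3
        · exact ⟨(wl w v.1 : ℝ), ⟨Nat.cast_le.2 h3, Nat.cast_le.2 h2⟩, le_refl _,
            Nat.cast_le.2 hv⟩
        · exact ⟨(wl w u.1 : ℝ), ⟨le_refl _, Nat.cast_le.2 hu⟩, Nat.cast_le.2 h3,
            Nat.cast_le.2 h1⟩
    rw [key]
    rcases (h u.1 u.2).2 v.1 v.2 with h1 | ⟨h1, h2⟩ | ⟨h1, h2⟩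
    · constructor
      · intro h'; exact absurd h1 h'.1
      · intro h'; exact absurd (Subtype.ext h1) h'.1
    · exact ⟨fun _ => ⟨fun e => h1.1 (congrArg Subtype.val e), h2⟩, fun _ => h1⟩
    · exact ⟨fun h' => absurd h' h1, fun h' => absurd h'.2 h2⟩

theorem RI_complete {G : Gr} (hG : IsIntervalGraph (graph G)) : ∃ l r : ℕ → ℕ,
    (∀ v ∈ G.1, l v ≤ 2 * G.1.length) ∧ (∀ v ∈ G.1, r v ≤ 2 * G.1.length) ∧
      ∀ c f, RI G (cert G c f l r) := by
  obtain ⟨l, r, hlr, hadj⟩ := hG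
  classical
  -- the endpoints
  set EP : Finset ℝ := G.1.attach.toFinset.image l ∪ G.1.attach.toFinset.image r with hEP
  have hl : ∀ v, l v ∈ EP := fun v => Finset.mem_union_left _ (Finset.mem_image_of_mem _
    (List.mem_toFinset.2 (List.mem_attach _ _)))
  have hr : ∀ v, r v ∈ EP := fun v => Finset.mem_union_right _ (Finset.mem_image_of_mem _
    (List.mem_toFinset.2 (List.mem_attach _ _)))
  have hcard : EP.card ≤ 2 * G.1.length := by
    have h1 : EP.card ≤ (G.1.attach.toFinset.image l).card +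
        (G.1.attach.toFinset.image r).card := Finset.card_union_le _ _
    have h2 := Finset.card_image_le (s := G.1.attach.toFinset) (f := l)
    have h3 := Finset.card_image_le (s := G.1.attach.toFinset) (f := r)
    have h4 := List.toFinset_card_le G.1.attach
    rw [List.length_attach] at h4
    omega
  have hrk : ∀ x ∈ EP, ∀ y ∈ EP, (x ≤ y ↔ (EP.filter (· < x)).card ≤ (EP.filter (· < y)).card)
      := by
    intro x hx y hy
    constructor
    · intro hxy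
      exact Finset.card_le_card (Finset.monotone_filter_right _ fun z _ hz => lt_of_lt_of_le hz hxy)
    · intro h
      by_contra hc
      push Not at hc
      have : (EP.filter (· < y)).card < (EP.filter (· < x)).card := by
        apply Finset.card_lt_card
        rw [Finset.ssubset_iff_of_subset (Finset.monotone_filter_right _
          fun z _ hz => lt_trans hz hc)]
        exact ⟨y, Finset.mem_filter.2 ⟨hy, hc⟩, fun h' => lt_irrefl _ (Finset.mem_filter.1 h').2⟩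
      omega
  refine ⟨fun v => if h : v ∈ G.1 then (EP.filter (· < l ⟨v, h⟩)).card else 0,
    fun v => if h : v ∈ G.1 then (EP.filter (· < r ⟨v, h⟩)).card else 0, ?_, ?_, ?_⟩
  · intro v hv
    simp only [dif_pos hv]
    exact (Finset.card_filter_le _ _).trans hcard
  · intro v hv
    simp only [dif_pos hv]
    exact (Finset.card_filter_le _ _).trans hcard
  · intro c f u hu
    have e1 : ∀ v (hv : v ∈ G.1), wl (cert G c f
        (fun v => if h : v ∈ G.1 then (EP.filter (· < l ⟨v, h⟩)).card else 0)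
        (fun v => if h : v ∈ G.1 then (EP.filter (· < r ⟨v, h⟩)).card else 0)) v =
        (EP.filter (· < l ⟨v, hv⟩)).card := by
      intro v hv
      unfold wl
      rw [gw_cert hv]
      simp only [dif_pos hv]
    have e2 : ∀ v (hv : v ∈ G.1), wr (cert G c f
        (fun v => if h : v ∈ G.1 then (EP.filter (· < l ⟨v, h⟩)).card else 0)
        (fun v => if h : v ∈ G.1 then (EP.filter (· < r ⟨v, h⟩)).card else 0)) v =
        (EP.filter (· < r ⟨v, hv⟩)).card := by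
      intro v hv
      unfold wr
      rw [gw_cert hv]
      simp only [dif_pos hv]
    rw [e1 u hu, e2 u hu]
    refine ⟨(hrk _ (hl _) _ (hr _)).1 (hlr _), fun v hv => ?_⟩
    rw [e1 v hv, e2 v hv, ← hrk _ (hl _) _ (hr _), ← hrk _ (hl _) _ (hr _)]
    by_cases huv : u = v
    · exact Or.inl huv
    · right
      have h1 := hadj ⟨u, hu⟩ ⟨v, hv⟩
      rw [adj_iff] at h1
      have h2 : (Set.Icc (l ⟨u, hu⟩) (r ⟨u, hu⟩) ∩ Set.Icc (l ⟨v, hv⟩) (r ⟨v, hv⟩)).Nonempty ↔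
          l ⟨u, hu⟩ ≤ r ⟨v, hv⟩ ∧ l ⟨v, hv⟩ ≤ r ⟨u, hu⟩ := by
        constructor
        · rintro ⟨x, ⟨a1, a2⟩, a3, a4⟩
          exact ⟨a1.trans a4, a3.trans a2⟩
        · rintro ⟨a1, a2⟩
          rcases le_total (l ⟨u, hu⟩) (l ⟨v, hv⟩) with h3 | h3
          · exact ⟨l ⟨v, hv⟩, ⟨h3, a2⟩, le_refl _, hlr _⟩
          · exact ⟨l ⟨u, hu⟩, ⟨le_refl _, hlr _⟩, h3, a1⟩
      rw [h2] at h1
      by_cases ha : Adj G u v
      · exact Or.inl ⟨ha, (h1.1 ha).2⟩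
      · exact Or.inr ⟨ha, fun hc => ha (h1.2 ⟨fun e => huv (congrArg Subtype.val e), hc⟩)⟩


/-- The test for the role assignment. -/
def RC (G R : Gr) (w : Wt) : Prop :=
  (∀ v ∈ G.1, wc w v ∈ R.1) ∧
    (∀ u ∈ G.1, ∀ v ∈ G.1, ¬ Adj G u v ∨ Adj R (wc w u) (wc w v)) ∧
    ∀ u ∈ G.1, ∀ y ∈ R.1, ¬ Adj R (wc w u) y ∨ ∃ v ∈ G.1, Adj G u v ∧ wc w v = y

theorem pp_RC : PP (fun x : (Gr × Gr) × Wt => RC x.1.1 x.1.2 x.2) := by
  unfold RC
  refine PP.and ?_ (PP.and ?_ ?_)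
  · exact PP.ball (l := fun x : (Gr × Gr) × Wt => x.1.1.1) (r := fun x v => wc x.2 v ∈ x.1.2.1)
      (by fun_prop) (PP.mem (by fun_prop) (by fun_prop))
  · refine PP.ball (l := fun x : (Gr × Gr) × Wt => x.1.1.1)
      (r := fun x u => ∀ v ∈ x.1.1.1, ¬ Adj x.1.1 u v ∨ Adj x.1.2 (wc x.2 u) (wc x.2 v))
      (by fun_prop) ?_
    exact PP.ball (l := fun x : ((Gr × Gr) × Wt) × ℕ => x.1.1.1.1)
      (r := fun x v => ¬ Adj x.1.1.1 x.2 v ∨ Adj x.1.1.2 (wc x.1.2 x.2) (wc x.1.2 v))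
      (by fun_prop) (PP.or (PP.not (pp_adj (by fun_prop) (by fun_prop) (by fun_prop)))
        (pp_adj (by fun_prop) (by fun_prop) (by fun_prop)))
  · refine PP.ball (l := fun x : (Gr × Gr) × Wt => x.1.1.1)
      (r := fun x u => ∀ y ∈ x.1.2.1, ¬ Adj x.1.2 (wc x.2 u) y ∨
        ∃ v ∈ x.1.1.1, Adj x.1.1 u v ∧ wc x.2 v = y) (by fun_prop) ?_
    refine PP.ball (l := fun x : ((Gr × Gr) × Wt) × ℕ => x.1.1.2.1)
      (r := fun x y => ¬ Adj x.1.1.2 (wc x.1.2 x.2) y ∨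
        ∃ v ∈ x.1.1.1.1, Adj x.1.1.1 x.2 v ∧ wc x.1.2 v = y) (by fun_prop) ?_
    refine PP.or (PP.not (pp_adj (by fun_prop) (by fun_prop) (by fun_prop))) ?_
    exact PP.bex (l := fun x : (((Gr × Gr) × Wt) × ℕ) × ℕ => x.1.1.1.1.1)
      (r := fun x v => Adj x.1.1.1.1 x.1.2 v ∧ wc x.1.1.2 v = x.2) (by fun_prop)
      (PP.and (pp_adj (by fun_prop) (by fun_prop) (by fun_prop))
        (PP.eq (by fun_prop) (by fun_prop)))

theorem role_of_RC {G R : Gr} {w : Wt} (h : RC G R w) : Role G R (wc w) := by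
  obtain ⟨h1, h2, h3⟩ := h
  refine ⟨h1, ?_, ?_⟩
  · intro u v huv
    exact (h2 u huv.2.1 v huv.2.2.1).resolve_left fun h => h huv
  · intro u hu y hy
    obtain ⟨v, -, hv, e⟩ := (h3 u hu y hy.2.2.1).resolve_left fun h => h hy
    exact ⟨v, hv, e⟩

theorem RC_of_role {G R : Gr} {f : ℕ → ℕ} (h : Role G R f) (l r : ℕ → ℕ) :
    RC G R (cert G f (fun _ => true) l r) := by
  have e : ∀ v ∈ G.1, wc (cert G f (fun _ => true) l r) v = f v := fun v hv => by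
    unfold wc; rw [gw_cert hv]
  refine ⟨?_, ?_, ?_⟩
  · intro v hv
    rw [e v hv]
    exact h.mem v hv
  · intro u hu v hv
    rw [e u hu, e v hv]
    by_cases huv : Adj G u v
    · exact Or.inr (h.hom u v huv)
    · exact Or.inl huv
  · intro u hu y _
    rw [e u hu]
    by_cases hy : Adj R (f u) y
    · obtain ⟨v, hv, e'⟩ := h.sur u hu y hy
      exact Or.inr ⟨v, hv.2.2.1, hv, by rw [e v hv.2.2.1]; exact e'⟩
    · exact Or.inl hy

theorem sz_cert_le' {G R : Gr} {c : ℕ → ℕ} {f : ℕ → Bool} {l r : ℕ → ℕ}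
    (hc : ∀ v ∈ G.1, c v ∈ R.1) (hl : ∀ v ∈ G.1, l v ≤ 2 * G.1.length)
    (hr : ∀ v ∈ G.1, r v ≤ 2 * G.1.length) :
    sz (cert G c f l r) ≤ sz (G, R) * (20 * sz (G, R) + 20) + 1 := by
  have h0 : sz (G, R) = sz G.1 + sz G.2 + 1 + (sz R.1 + sz R.2 + 1) + 1 := by
    obtain ⟨a, b⟩ := G
    obtain ⟨c, d⟩ := R
    simp only [sz_pair]
  have hlen : G.1.length ≤ sz (G, R) := by
    have := length_lt_sz G.1
    omega
  refine (sz_le_length_mul _ (20 * sz (G, R) + 19) ?_).trans ?_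
  · intro x hx
    unfold cert at hx
    rw [List.mem_map] at hx
    obtain ⟨v, hv, rfl⟩ := hx
    have h1 := sz_le_of_mem hv
    have h2 := sz_le_of_mem (hc v hv)
    have h3 := sz_bool_le (f v)
    have h4 := sz_small (l v)
    have h5 := sz_small (r v)
    have h6 := hl v hv
    have h7 := hr v hv
    have h8 := length_lt_sz G.1
    rw [sz_pair, sz_pair, sz_pair, sz_pair]
    omega
  · unfold cert
    rw [List.length_map]
    exact Nat.succ_le_succ (Nat.mul_le_mul_right (20 * sz (G, R) + 19 + 1) hlen)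

theorem np_role : InNPP RoleInterval := by
  refine R544.inNPP_of_pp (β := Wt) (R := fun x w => RC x.1 x.2 w ∧ RI x.1 w)
    (PP.and pp_RC (pp_RI.comp (f := fun x : (Gr × Gr) × Wt => (x.1.1, x.2)) (by fun_prop)))
    (Polynomial.X * (20 * Polynomial.X + 20) + 1) ?_ ?_
  · rintro ⟨G, R⟩ ⟨hG, hr⟩
    obtain ⟨f, h⟩ := role_iff.1 hr
    obtain ⟨l, r, hl, hr', hRI⟩ := RI_complete hG
    refine ⟨cert G f (fun _ => true) l r, ?_, RC_of_role h l r, hRI _ _⟩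
    have := sz_cert_le' (f := fun _ => true) (fun v hv => h.mem v hv) hl hr'
    simpa using this
  · rintro ⟨G, R⟩ w ⟨hc, hR'⟩
    exact ⟨RI_sound hR', role_iff.2 ⟨_, role_of_RC hc⟩⟩

end Pool.Agent.NPC.R536RA
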