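import Pool.Agent.R536.RA.Forth

/-!
# The reduction for formulas and its running time
-/

set_option autoImplicit false

namespace Pool.Agent.NPC.R536RA

open Pool.Agent.NPC.R536CS Pool.Agent.NPC.R536UD

theorem red {φ : List (Lit ℕ × Lit ℕ × Lit ℕ)} : SAT3 φ ↔
    RoleInterval (GG φ.length (vi φ) (sg φ), RR φ.length) := by
  have hvi : ∀ r < 3 * φ.length, vi φ r < 3 * φ.length := fun r hr => vi_lt hr
  unfold RoleInterval
  simp only
  rw [role_iff]
  constructor
  · rintro ⟨τ, hτ⟩
    refine ⟨interval_GG, ?_⟩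
    have h := slots_of_sat hτ
    have h' : ∀ j, ∃ s, j < φ.length → s / 3 = j ∧ τ (vr φ s) = sg φ s := by
      intro j
      by_cases hj : j < φ.length
      · obtain ⟨s, hs⟩ := h j hj
        exact ⟨s, fun _ => hs⟩
      · exact ⟨0, fun h => absurd h hj⟩
    choose ch hch using h'
    have hτ' : ∀ r < 3 * φ.length, τ ((((lits φ).map Prod.snd).getD (vi φ r) 0)) = τ (vr φ r) := by
      intro r hr
      have h1 := vr_mem hr
      unfold vars at h1
      rw [List.mem_dedup] at h1
      have h2 := List.idxOf_lt_length_of_mem h1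
      rw [List.getD_eq_getElem _ _ (by unfold vi ix; exact h2)]
      unfold vi ix
      rw [List.getElem_idxOf]
    exact role_of_sat hvi (τ := fun i => τ (((lits φ).map Prod.snd).getD i 0)) (ch := ch)
      (fun j hj => (hch j hj).1) (fun j hj => by
        have h1 := (hch j hj).1
        rw [hτ' (ch j) (by omega)]
        exact (hch j hj).2)
  · rintro ⟨-, f, h⟩
    rcases Nat.eq_zero_or_pos φ.length with h0 | hpos
    · refine sat_of_slots (fun _ => true) fun r hr => ?_
      omega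
    · obtain ⟨τ, hτ⟩ := sat_of_role hvi hpos h
      refine sat_of_slots (fun v => τ (ix φ v)) fun r hr => ?_
      obtain ⟨s, hs, hs'⟩ := hτ (r / 3) (by omega)
      exact ⟨s, slot_cases (by omega), hs'⟩

/-! ### The running time -/

section

variable {α : Type} [TEnc α]

theorem pP6 {x : α → ℕ} (hx : Poly x) : Poly (fun a => p6 (x a)) := by
  unfold p6; fun_prop

attribute [fun_prop] pP6

theorem pMM {m : α → ℕ} (hm : Poly m) : Poly (fun a => MM (m a)) := by
  unfold MM; fun_prop

attribute [fun_prop] pMM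

theorem pNi {m c : α → ℕ} (hm : Poly m) (hc : Poly c) : Poly (fun a => ni (m a) (c a)) := by
  unfold ni; fun_prop

attribute [fun_prop] pNi

theorem pLt {φ : α → List (Lit ℕ × Lit ℕ × Lit ℕ)} {r : α → ℕ} (hφ : Poly φ) (hr : Poly r) :
    Poly (fun a => lt (vi (φ a)) (sg (φ a)) (r a)) := by
  unfold lt; fun_prop

attribute [fun_prop] pLt

theorem pIt {φ : α → List (Lit ℕ × Lit ℕ × Lit ℕ)} {c i k : α → ℕ} (hφ : Poly φ) (hc : Poly c)
    (hi : Poly i) (hk : Poly k) :
    Poly (fun a => it (φ a).length (vi (φ a)) (sg (φ a)) (c a) (i a) (k a)) := by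
  unfold it; fun_prop

attribute [fun_prop] pIt

theorem pLe {φ : α → List (Lit ℕ × Lit ℕ × Lit ℕ)} {c i : α → ℕ} (hφ : Poly φ) (hc : Poly c)
    (hi : Poly i) : Poly (fun a => le (φ a).length (vi (φ a)) (sg (φ a)) (c a) (i a)) := by
  unfold le; fun_prop

attribute [fun_prop] pLe

theorem pLn {φ : α → List (Lit ℕ × Lit ℕ × Lit ℕ)} {q : α → ℕ} (hφ : Poly φ) (hq : Poly q) :
    Poly (fun a => ln (φ a).length (vi (φ a)) (sg (φ a)) (q a)) := by
  unfold ln; fun_prop

attribute [fun_prop] pLn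

theorem pBB {m : α → ℕ} (hm : Poly m) : Poly (fun a => BB (m a)) := by
  unfold BB; fun_prop

attribute [fun_prop] pBB

theorem uP6 {x : α → ℕ} (hx : UPoly x) : UPoly (fun a => p6 (x a)) := by
  unfold p6
  exact UPoly.mul (UPoly.mul (UPoly.mul (UPoly.mul (UPoly.mul hx hx) hx) hx) hx) hx

theorem uMM {m : α → ℕ} (hm : UPoly m) : UPoly (fun a => MM (m a)) :=
  UPoly.add (uP6 (UPoly.mul (UPoly.const 6) hm)) (UPoly.const 5)

theorem uBB {m : α → ℕ} (hm : UPoly m) : UPoly (fun a => BB (m a)) :=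
  uP6 (UPoly.add (uMM hm) (UPoly.mul (UPoly.const 6) hm))

/-- Graphs given by lists of cliques are computed in polynomial time. -/
theorem pCg {T : α → ℕ} {cl : α → ℕ → List ℕ} (hT : UPoly T)
    (hcl : Poly (fun x : α × ℕ => cl x.1 x.2)) : Poly (fun a => cg (T a) (cl a)) := by
  unfold cg
  refine Poly.pair (Poly.flatMap (F := fun a t => cl a t) hT.range hcl) ?_
  refine Poly.flatMap (F := fun a t => (cl a t).flatMap (fun u => (cl a t).map (fun v => (u, v))))
    hT.range ?_
  refine Poly.flatMap (F := fun (x : α × ℕ) u => (cl x.1 x.2).map (fun v => (u, v))) hcl ?_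
  exact Poly.map (F := fun (x : (α × ℕ) × ℕ) v => (x.2, v)) (hcl.comp (Poly.fst Poly.id))
    (by fun_prop)

theorem GG_poly : Poly (fun φ : List (Lit ℕ × Lit ℕ × Lit ℕ) =>
    GG φ.length (vi φ) (sg φ)) := by
  have hm : UPoly (fun φ : List (Lit ℕ × Lit ℕ × Lit ℕ) => φ.length) := UPoly.length Poly.id
  refine pCg (UPoly.mul (UPoly.mul (UPoly.add (UPoly.mul (UPoly.const 2) hm) (UPoly.const 3))
    (UPoly.mul (UPoly.const 6) hm)) (uBB hm)) ?_
  unfold cq
  fun_prop

theorem RR_poly : Poly (fun φ : List (Lit ℕ × Lit ℕ × Lit ℕ) => RR φ.length) := by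
  have hm : UPoly (fun φ : List (Lit ℕ × Lit ℕ × Lit ℕ) => φ.length) := UPoly.length Poly.id
  refine pCg (UPoly.mul (UPoly.mul (UPoly.const 6) hm) (UPoly.add (uMM hm)
    (UPoly.mul (UPoly.const 6) hm))) ?_
  unfold cq
  fun_prop

end

theorem hard_role : NPHardP RoleInterval :=
  (hardI_SAT3.trans (f := fun φ => (GG φ.length (vi φ) (sg φ), RR φ.length))
    (Poly.pair GG_poly RR_poly) fun _ => red).toNPHardP

end Pool.Agent.NPC.R536RA
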