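import Pool.Agent.R536.RA.Defs
import Pool.Agent.R536.RA.Fold

/-!
# The reduction
-/

set_option autoImplicit false

namespace Pool.Agent.NPC.R536RA

open Pool.Agent.NPC.R536CS Pool.Agent.NPC.R536UD

/-- The sixth power. -/
def p6 (x : ℕ) : ℕ := x * x * x * x * x * x

section

variable (m : ℕ) (vi : ℕ → ℕ) (sg : ℕ → Bool)

/-- The literal of an occurrence. -/
def lt (r : ℕ) : ℕ := 2 * vi r + (bif sg r then 0 else 1)

/-- A large number. -/
def MM : ℕ := p6 (6 * m) + 5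

/-- The labels of the item `i` of the cell `c`. -/
def it (c i k : ℕ) : ℕ :=
  if c = 0 ∨ c = 2 * m + 2 then i
  else if c % 2 = 1 then 2 * i + k % 2
  else if i = vi (3 * (c / 2 - 1)) then lt vi sg (3 * (c / 2 - 1) + k % 3)
  else if i = vi (3 * (c / 2 - 1) + 1) ∨ i = vi (3 * (c / 2 - 1) + 2) then
    2 * vi (3 * (c / 2 - 1) + k / 2) + k % 2
  else 2 * i + k % 2

/-- The length of the path of the item `i` of the cell `c`. -/
def le (c i : ℕ) : ℕ :=
  (MM m + it m vi sg c i 0) * (MM m + it m vi sg c i 1) * (MM m + it m vi sg c i 2) *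
    (MM m + it m vi sg c i 3) * (MM m + it m vi sg c i 4) * (MM m + it m vi sg c i 5)

/-- The number of items of the cell `c`. -/
def ni (c : ℕ) : ℕ := if c = 0 ∨ c = 2 * m + 2 then 6 * m else 3 * m

/-- The lengths of all paths. -/
def ln (q : ℕ) : ℕ :=
  if q % (6 * m) < ni m (q / (6 * m)) then le m vi sg (q / (6 * m)) (q % (6 * m)) else 0

/-- A bound for the lengths. -/
def BB : ℕ := p6 (MM m + 6 * m)

/-- The graph. -/
def GG : Gr := tr ((2 * m + 3) * (6 * m)) (BB m) (ln m vi sg) (fun q => q / (6 * m))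
  (fun q => q / (6 * m) + 1)

/-- The role graph. -/
def RR : Gr := tr (6 * m) (MM m + 6 * m) (fun q => MM m + q) (fun _ => 0) (fun _ => 1)

end

variable {m : ℕ} {vi : ℕ → ℕ} {sg : ℕ → Bool}

theorem p6_mono {x y : ℕ} (h : x ≤ y) : p6 x ≤ p6 y := by
  unfold p6
  gcongr

theorem lt_lt (hvi : ∀ r < 3 * m, vi r < 3 * m) {r : ℕ} (hr : r < 3 * m) :
    lt vi sg r < 6 * m := by
  unfold lt
  have := hvi r hr
  cases sg r <;> simp <;> omega

theorem it_lt (hvi : ∀ r < 3 * m, vi r < 3 * m) {c i k : ℕ} (hc : c < 2 * m + 3)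
    (hi : i < ni m c) (hk : k < 6) : it m vi sg c i k < 6 * m := by
  unfold ni at hi
  unfold it
  split_ifs at hi ⊢ with h1 h2 h3 h4
  · exact hi
  · omega
  · exact lt_lt hvi (by omega)
  · have := hvi (3 * (c / 2 - 1) + k / 2) (by omega)
    omega
  · omega

theorem le_le (hvi : ∀ r < 3 * m, vi r < 3 * m) {c i : ℕ} (hc : c < 2 * m + 3)
    (hi : i < ni m c) : le m vi sg c i ≤ BB m := by
  have h : ∀ k < 6, MM m + it m vi sg c i k ≤ MM m + 6 * m := fun k hk =>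
    Nat.add_le_add_left (it_lt hvi hc hi hk).le _
  unfold le BB p6
  gcongr <;> exact (it_lt hvi hc hi (by norm_num)).le

theorem le_pos {c i : ℕ} : 0 < le m vi sg c i := by
  have h : ∀ x, 0 < MM m + x := fun x => by unfold MM; omega
  unfold le
  exact Nat.mul_pos (Nat.mul_pos (Nat.mul_pos (Nat.mul_pos (Nat.mul_pos (h _) (h _)) (h _)) (h _))
    (h _)) (h _)

theorem ln_le (hvi : ∀ r < 3 * m, vi r < 3 * m) : ∀ q < (2 * m + 3) * (6 * m),
    ln m vi sg q ≤ BB m := by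
  intro q hq
  unfold ln
  split_ifs with h
  · exact le_le hvi (Nat.div_lt_of_lt_mul (by rwa [Nat.mul_comm])) h
  · exact Nat.zero_le _

theorem lnR : ∀ q < 6 * m, MM m + q ≤ MM m + 6 * m := fun _ hq => Nat.add_le_add_left hq.le _

theorem BB_pos : 0 < BB m := by
  have h : 0 < MM m + 6 * m := by unfold MM; omega
  unfold BB p6
  positivity

theorem MM_pos (x : ℕ) : 0 < MM m + x := by unfold MM; omega

/-- The item with the index `i` in the cell `c`. -/
theorem item {c i : ℕ} (hc : c < 2 * m + 3) (hi : i < ni m c) :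
    c * (6 * m) + i < (2 * m + 3) * (6 * m) ∧ (c * (6 * m) + i) / (6 * m) = c ∧
      (c * (6 * m) + i) % (6 * m) = i ∧ ln m vi sg (c * (6 * m) + i) = le m vi sg c i := by
  have hi' : i < 6 * m := by
    unfold ni at hi
    split_ifs at hi <;> omega
  obtain ⟨h1, h2, h3⟩ := slot_lt (K := 2 * m + 3) (B := 6 * m) hc hi'
  refine ⟨h1, h2, h3, ?_⟩
  unfold ln
  rw [h2, h3, if_pos hi]

theorem item' {q : ℕ} (hq : q < (2 * m + 3) * (6 * m)) (h : 0 < ln m vi sg q) :
    q / (6 * m) < 2 * m + 3 ∧ q % (6 * m) < ni m (q / (6 * m)) ∧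
      q / (6 * m) * (6 * m) + q % (6 * m) = q := by
  refine ⟨Nat.div_lt_of_lt_mul (by rwa [Nat.mul_comm]), ?_, ?_⟩
  · by_contra hc
    unfold ln at h
    rw [if_neg hc] at h
    exact lt_irrefl _ h
  · rw [Nat.mul_comm]; exact Nat.div_add_mod q _

/-- Only the labels of an item divide the length of its path. -/
theorem dvd_it {l x0 x1 x2 x3 x4 x5 : ℕ} (hl : l < 6 * m) (h0 : x0 < 6 * m) (h1 : x1 < 6 * m)
    (h2 : x2 < 6 * m) (h3 : x3 < 6 * m) (h4 : x4 < 6 * m) (h5 : x5 < 6 * m)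
    (h : MM m + l ∣ (MM m + x0) * (MM m + x1) * (MM m + x2) * (MM m + x3) * (MM m + x4) *
      (MM m + x5)) : l = x0 ∨ l = x1 ∨ l = x2 ∨ l = x3 ∨ l = x4 ∨ l = x5 := by
  have hz : ∀ x : ℕ, ((MM m : ℤ) + x) ≡ ((x : ℤ) - l) [ZMOD ((MM m : ℤ) + l)] := fun x => by
    rw [Int.modEq_iff_dvd]
    exact ⟨-1, by ring⟩
  have h6 : ((MM m : ℤ) + l) ∣ ((x0 : ℤ) - l) * ((x1 : ℤ) - l) * ((x2 : ℤ) - l) *
      ((x3 : ℤ) - l) * ((x4 : ℤ) - l) * ((x5 : ℤ) - l) := by
    have h7 : ((MM m : ℤ) + l) ∣ ((MM m : ℤ) + x0) * ((MM m : ℤ) + x1) * ((MM m : ℤ) + x2) *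
        ((MM m : ℤ) + x3) * ((MM m : ℤ) + x4) * ((MM m : ℤ) + x5) := by exact_mod_cast h
    rw [← Int.modEq_zero_iff_dvd] at h7 ⊢
    exact ((((((hz x0).mul (hz x1)).mul (hz x2)).mul (hz x3)).mul (hz x4)).mul (hz x5)).symm.trans h7
  by_contra hc
  push Not at hc
  obtain ⟨c0, c1, c2, c3, c4, c5⟩ := hc
  have hab : ∀ x < 6 * m, ((x : ℤ) - l).natAbs ≤ 6 * m := fun x hx => by omega
  have h8 := Int.natAbs_dvd_natAbs.2 h6
  rw [Int.natAbs_mul, Int.natAbs_mul, Int.natAbs_mul, Int.natAbs_mul, Int.natAbs_mul] at h8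
  have hpos : ∀ x : ℕ, l ≠ x → 0 < ((x : ℤ) - l).natAbs := fun x hx => by omega
  have h9 := Nat.le_of_dvd (Nat.mul_pos (Nat.mul_pos (Nat.mul_pos (Nat.mul_pos (Nat.mul_pos
    (hpos _ c0) (hpos _ c1)) (hpos _ c2)) (hpos _ c3)) (hpos _ c4)) (hpos _ c5)) h8
  have h10 : ((x0 : ℤ) - l).natAbs * ((x1 : ℤ) - l).natAbs * ((x2 : ℤ) - l).natAbs *
      ((x3 : ℤ) - l).natAbs * ((x4 : ℤ) - l).natAbs * ((x5 : ℤ) - l).natAbs ≤ p6 (6 * m) := by
    unfold p6
    exact Nat.mul_le_mul (Nat.mul_le_mul (Nat.mul_le_mul (Nat.mul_le_mul (Nat.mul_le_mul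
      (hab _ h0) (hab _ h1)) (hab _ h2)) (hab _ h3)) (hab _ h4)) (hab _ h5)
  have h11 : ((MM m : ℤ) + l).natAbs = MM m + l := by omega
  rw [h11] at h9
  have h12 : MM m = p6 (6 * m) + 5 := rfl
  omega

theorem dvd_le (hvi : ∀ r < 3 * m, vi r < 3 * m) {c i l : ℕ} (hc : c < 2 * m + 3)
    (hi : i < ni m c) (hl : l < 6 * m) (h : MM m + l ∣ le m vi sg c i) :
    ∃ k < 6, l = it m vi sg c i k := by
  unfold le at h
  have hb : ∀ k < 6, it m vi sg c i k < 6 * m := fun k hk => it_lt hvi hc hi hk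
  rcases dvd_it hl (hb 0 (by norm_num)) (hb 1 (by norm_num)) (hb 2 (by norm_num))
    (hb 3 (by norm_num)) (hb 4 (by norm_num)) (hb 5 (by norm_num)) h with e | e | e | e | e | e
  · exact ⟨0, by norm_num, e⟩
  · exact ⟨1, by norm_num, e⟩
  · exact ⟨2, by norm_num, e⟩
  · exact ⟨3, by norm_num, e⟩
  · exact ⟨4, by norm_num, e⟩
  · exact ⟨5, by norm_num, e⟩

theorem it_dvd {c i k : ℕ} (hk : k < 6) : MM m + it m vi sg c i k ∣ le m vi sg c i := by
  unfold le
  interval_cases k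
  · exact ⟨(MM m + it m vi sg c i 1) * (MM m + it m vi sg c i 2) *
      (MM m + it m vi sg c i 3) * (MM m + it m vi sg c i 4) * (MM m + it m vi sg c i 5), by ring⟩
  · exact ⟨(MM m + it m vi sg c i 0) * (MM m + it m vi sg c i 2) *
      (MM m + it m vi sg c i 3) * (MM m + it m vi sg c i 4) * (MM m + it m vi sg c i 5), by ring⟩
  · exact ⟨(MM m + it m vi sg c i 0) * (MM m + it m vi sg c i 1) *
      (MM m + it m vi sg c i 3) * (MM m + it m vi sg c i 4) * (MM m + it m vi sg c i 5), by ring⟩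
  · exact ⟨(MM m + it m vi sg c i 0) * (MM m + it m vi sg c i 1) *
      (MM m + it m vi sg c i 2) * (MM m + it m vi sg c i 4) * (MM m + it m vi sg c i 5), by ring⟩
  · exact ⟨(MM m + it m vi sg c i 0) * (MM m + it m vi sg c i 1) *
      (MM m + it m vi sg c i 2) * (MM m + it m vi sg c i 3) * (MM m + it m vi sg c i 5), by ring⟩
  · exact ⟨(MM m + it m vi sg c i 0) * (MM m + it m vi sg c i 1) *
      (MM m + it m vi sg c i 2) * (MM m + it m vi sg c i 3) * (MM m + it m vi sg c i 4), by ring⟩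

theorem interval_GG : IsIntervalGraph (graph (GG m vi sg)) := by
  refine interval_tr fun i q₁ q₂ q₃ h1 h2 h3 h4 => ?_
  have a1 := Nat.div_le_div_right (c := 6 * m) h1
  have a2 := Nat.div_le_div_right (c := 6 * m) h2
  generalize q₁ / (6 * m) = c1 at *
  generalize q₂ / (6 * m) = c2 at *
  generalize q₃ / (6 * m) = c3 at *
  omega

/-! ### From labels to assignments -/

theorem sat_of_labels (hvi : ∀ r < 3 * m, vi r < 3 * m) {lam : ℕ → ℕ → ℕ}
    (h1 : ∀ c < 2 * m + 3, ∀ i < ni m c, ∃ k < 6, lam c i = it m vi sg c i k)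
    (h2 : ∀ w, 0 < w → w < 2 * m + 3 → ∀ l < 6 * m, ∃ c i, (c = w ∨ c + 1 = w) ∧
      i < ni m c ∧ lam c i = l) :
    ∃ τ : ℕ → Bool, ∀ j < m, ∃ r, r / 3 = j ∧ τ (vi r) = sg r := by
  have hni : ∀ c, c ≠ 0 → c ≠ 2 * m + 2 → ni m c = 3 * m := fun c h h' => by
    unfold ni
    rw [if_neg (by tauto)]
  have he : ∀ j ≤ m, ∀ i < 3 * m, lam (2 * j + 1) i = 2 * i ∨ lam (2 * j + 1) i = 2 * i + 1 := by
    intro j hj i hi
    obtain ⟨k, -, h⟩ := h1 (2 * j + 1) (by omega) i (by rw [hni _ (by omega) (by omega)]; exact hi)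
    unfold it at h
    rw [if_neg (by omega), if_pos (by omega)] at h
    omega
  -- the labels that are missing in the cell `2 * j + 1` are in the next and in the previous cell
  have hs1 : ∀ j < m, ∀ i < 3 * m, ∃ i' < 3 * m,
      lam (2 * j + 2) i' = 4 * i + 1 - lam (2 * j + 1) i := by
    intro j hj i hi
    have a1 := he j hj.le i hi
    obtain ⟨c, i', hc, hi', e⟩ := h2 (2 * j + 2) (by omega) (by omega)
      (4 * i + 1 - lam (2 * j + 1) i) (by omega)
    rcases hc with rfl | hc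
    · rw [hni _ (by omega) (by omega)] at hi'
      exact ⟨i', hi', e⟩
    · obtain rfl : c = 2 * j + 1 := by omega
      rw [hni _ (by omega) (by omega)] at hi'
      have a2 := he j hj.le i' hi'
      have : i' = i := by omega
      subst this
      omega
  have hs2 : ∀ j < m, ∀ i < 3 * m, ∃ i' < 3 * m,
      lam (2 * j + 2) i' = 4 * i + 1 - lam (2 * (j + 1) + 1) i := by
    intro j hj i hi
    have a1 := he (j + 1) hj i hi
    obtain ⟨c, i', hc, hi', e⟩ := h2 (2 * j + 3) (by omega) (by omega)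
      (4 * i + 1 - lam (2 * (j + 1) + 1) i) (by omega)
    rcases hc with hc | hc
    · obtain rfl : c = 2 * (j + 1) + 1 := by omega
      rw [hni _ (by omega) (by omega)] at hi'
      have a2 := he (j + 1) hj i' hi'
      have : i' = i := by omega
      subst this
      omega
    · obtain rfl : c = 2 * j + 2 := by omega
      rw [hni _ (by omega) (by omega)] at hi'
      exact ⟨i', hi', e⟩
  have hS : ∀ j < m, (Finset.range (3 * m)).image (lam (2 * j + 2)) =
      (Finset.range (3 * m)).image (fun i => 4 * i + 1 - lam (2 * j + 1) i) := by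
    intro j hj
    symm
    apply Finset.eq_of_subset_of_card_le
    · intro x hx
      obtain ⟨i, hi, rfl⟩ := Finset.mem_image.1 hx
      obtain ⟨i', hi', e⟩ := hs1 j hj i (Finset.mem_range.1 hi)
      exact Finset.mem_image.2 ⟨i', Finset.mem_range.2 hi', e⟩
    · refine Finset.card_image_le.trans (le_of_eq ?_)
      symm
      apply Finset.card_image_of_injOn
      intro i hi i' hi' e
      rw [Finset.mem_coe, Finset.mem_range] at hi hi'
      have a1 := he j hj.le i hi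
      have a2 := he j hj.le i' hi'
      simp only at e
      omega
  have hstep : ∀ j < m, ∀ i < 3 * m, lam (2 * (j + 1) + 1) i = lam (2 * j + 1) i := by
    intro j hj i hi
    obtain ⟨i', hi', e⟩ := hs2 j hj i hi
    have hmem : lam (2 * j + 2) i' ∈ (Finset.range (3 * m)).image (lam (2 * j + 2)) :=
      Finset.mem_image.2 ⟨i', Finset.mem_range.2 hi', rfl⟩
    rw [hS j hj, Finset.mem_image] at hmem
    obtain ⟨i'', hi'', e'⟩ := hmem
    rw [Finset.mem_range] at hi''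
    have a1 := he j hj.le i'' hi''
    have a2 := he (j + 1) hj i hi
    have : i'' = i := by omega
    subst this
    omega
  have hall : ∀ j ≤ m, ∀ i < 3 * m, lam (2 * j + 1) i = lam 1 i := by
    intro j
    induction j with
    | zero => intro _ i _; rfl
    | succ j ih =>
      intro hj i hi
      rw [hstep j (by omega) i hi, ih (by omega) i hi]
  refine ⟨fun i => decide (lam 1 i = 2 * i + 1), fun j hj => ?_⟩
  have hv := hvi (3 * j) (by omega)
  obtain ⟨k, hk, e⟩ := h1 (2 * j + 2) (by omega) (vi (3 * j)) (by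
    rw [hni _ (by omega) (by omega)]; exact hv)
  unfold it at e
  rw [if_neg (by omega), if_neg (by omega), show (2 * j + 2) / 2 - 1 = j by omega,
    if_pos rfl] at e
  refine ⟨3 * j + k % 3, by omega, ?_⟩
  have hmem : lam (2 * j + 2) (vi (3 * j)) ∈ (Finset.range (3 * m)).image (lam (2 * j + 2)) :=
    Finset.mem_image.2 ⟨_, Finset.mem_range.2 hv, rfl⟩
  rw [hS j hj, Finset.mem_image] at hmem
  obtain ⟨i', hi', e'⟩ := hmem
  rw [Finset.mem_range] at hi'
  rw [hall j hj.le i' hi', e] at e'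
  have a1 := he 0 (Nat.zero_le _) i' hi'
  rw [Nat.mul_zero, Nat.zero_add] at a1
  unfold lt at e'
  cases hsg : sg (3 * j + k % 3)
  · rw [hsg] at e'
    simp only [cond_false] at e'
    have : vi (3 * j + k % 3) = i' := by omega
    rw [this, decide_eq_false_iff_not]
    omega
  · rw [hsg] at e'
    simp only [cond_true] at e'
    have : vi (3 * j + k % 3) = i' := by omega
    rw [this, decide_eq_true_iff]
    omega

/-! ### From role assignments to labels -/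

section

variable {f : ℕ → ℕ}

theorem nbr_pt (hvi : ∀ r < 3 * m, vi r < 3 * m) {q s v : ℕ}
    (h : Adj (GG m vi sg) (nm 2 q s) v) : v = nm 1 (q / (6 * m)) 0 ∨
      v = nm 1 (q / (6 * m) + 1) 0 ∨ (v = nm 2 q (s + 1) ∧ s < ln m vi sg q) ∨
      (v = nm 2 q (s - 1) ∧ 0 < s) := by
  rcases tr_cases h.2.2.1 with ⟨i, rfl⟩ | ⟨q', s', rfl⟩
  · have h' : Adj (GG m vi sg) (nm 1 i 0) (nm 2 q s) := ⟨h.1.symm, h.2.2.1, h.2.1, h.2.2.2.symm⟩
    obtain ⟨-, -, -, h1⟩ := (adj_hub_pt (ln_le hvi)).1 h'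
    rcases h1 with rfl | rfl
    · exact Or.inl rfl
    · exact Or.inr (Or.inl rfl)
  · obtain ⟨rfl, -, h2, h3, h4⟩ := (adj_pt_pt (ln_le hvi)).1 h
    rcases h4 with rfl | rfl
    · right; right; left
      exact ⟨rfl, by omega⟩
    · right; right; right
      exact ⟨rfl, by omega⟩

variable (hvi : ∀ r < 3 * m, vi r < 3 * m) (hm : 0 < m) (h : Role (GG m vi sg) (RR m) f)

include hvi hm h

theorem pt_img {q s : ℕ} (hq : q < (2 * m + 3) * (6 * m)) (hln : 0 < ln m vi sg q)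
    (hs : s ≤ ln m vi sg q) : ∃ l < 6 * m, ∃ b ≤ MM m + l, f (nm 2 q s) = nm 2 l b := by
  have hmem : nm 2 q s ∈ (GG m vi sg).1 := (mem_pt (ln_le hvi)).2 ⟨hq, hln, hs⟩
  have hf := h.mem _ hmem
  rcases tr_cases hf with ⟨i, e⟩ | ⟨l, b, e⟩
  · exfalso
    have hi : i = 0 ∨ i = 1 := by
      rw [e] at hf
      obtain ⟨_, _, h1⟩ := (mem_hub (by have := MM_pos (m := m) (6 * m); omega)).1 hf
      exact h1
    have hM : MM m = p6 (6 * m) + 5 := rfl
    have hsur : ∀ b < 5, ∃ v, Adj (GG m vi sg) (nm 2 q s) v ∧ f v = nm 2 0 b := by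
      intro b hb
      apply h.sur _ hmem
      rw [e]
      exact (adj_hub_pt lnR).2 ⟨by omega, by omega, by omega, hi⟩
    set S : Finset ℕ := {nm 1 (q / (6 * m)) 0, nm 1 (q / (6 * m) + 1) 0, nm 2 q (s + 1),
      nm 2 q (s - 1)} with hS
    have h1 : (Finset.range 5).image (fun b => nm 2 0 b) ⊆ S.image f := by
      intro y hy
      obtain ⟨b, hb, rfl⟩ := Finset.mem_image.1 hy
      obtain ⟨v, hv, hfv⟩ := hsur b (Finset.mem_range.1 hb)
      refine Finset.mem_image.2 ⟨v, ?_, hfv⟩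
      rw [hS]
      rcases nbr_pt hvi hv with rfl | rfl | ⟨rfl, -⟩ | ⟨rfl, -⟩ <;> simp
    have h2 := Finset.card_le_card h1
    rw [Finset.card_image_of_injective _ (fun b b' hbb => (nm_inj.1 hbb).2.2),
      Finset.card_range] at h2
    have h3 := (Finset.card_image_le (s := S) (f := f))
    have h4 : S.card ≤ 4 := Finset.card_le_four
    omega
  · rw [e] at hf
    obtain ⟨h1, -, h2⟩ := (mem_pt lnR).1 hf
    exact ⟨l, h1, b, h2, e⟩

theorem hub_img {c w : ℕ} (hc : c < 2 * m + 3) (hw : w = c ∨ w = c + 1) :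
    f (nm 1 w 0) = nm 1 0 0 ∨ f (nm 1 w 0) = nm 1 1 0 := by
  have hi : 0 < ni m c := by unfold ni; split_ifs <;> omega
  obtain ⟨h1, h2, h3, h4⟩ := item (vi := vi) (sg := sg) hc hi
  rw [Nat.add_zero] at h1 h2 h3 h4
  have hpos : 0 < ln m vi sg (c * (6 * m)) := by rw [h4]; exact le_pos
  obtain ⟨l, hl, b, hb, e⟩ := pt_img hvi hm h h1 hpos (Nat.zero_le _)
  obtain ⟨l', hl', b', hb', e'⟩ := pt_img hvi hm h h1 hpos (show 1 ≤ _ from hpos)
  have a1 : Adj (GG m vi sg) (nm 2 (c * (6 * m)) 0) (nm 2 (c * (6 * m)) 1) :=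
    (adj_pt_pt (ln_le hvi)).2 ⟨rfl, h1, Nat.zero_le _, hpos, Or.inl rfl⟩
  have a2 : ∀ s ≤ 1, Adj (GG m vi sg) (nm 1 w 0) (nm 2 (c * (6 * m)) s) := fun s hs =>
    (adj_hub_pt (ln_le hvi)).2 ⟨h1, hpos, hs.trans hpos, by rw [h2]; exact hw⟩
  have b1 := h.hom _ _ a1
  have b2 := h.hom _ _ (a2 0 (by norm_num))
  have b3 := h.hom _ _ (a2 1 (by norm_num))
  rw [e, e'] at b1
  rw [e] at b2
  rw [e'] at b3
  have hf := b2.2.1
  rcases tr_cases hf with ⟨i, e2⟩ | ⟨l2, b2', e2⟩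
  · rw [e2] at hf ⊢
    obtain ⟨_, _, h5⟩ := (mem_hub (by have := MM_pos (m := m) (6 * m); omega)).1 hf
    rcases h5 with rfl | rfl
    · exact Or.inl rfl
    · exact Or.inr rfl
  · exfalso
    rw [e2] at b2 b3
    have c1 := (adj_pt_pt lnR).1 b1
    have c2 := (adj_pt_pt lnR).1 b2
    have c3 := (adj_pt_pt lnR).1 b3
    omega

theorem lab_exists {c i : ℕ} (hc : c < 2 * m + 3) (hi : i < ni m c) :
    ∃ l, (∃ k < 6, l = it m vi sg c i k) ∧
      ∀ s ≤ ln m vi sg (c * (6 * m) + i), ∃ b, f (nm 2 (c * (6 * m) + i) s) = nm 2 l b := by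
  obtain ⟨h1, h2, h3, h4⟩ := item (vi := vi) (sg := sg) hc hi
  set q := c * (6 * m) + i with hq
  have hpos : 0 < ln m vi sg q := by rw [h4]; exact le_pos
  obtain ⟨l, hl, b0, hb0, e0⟩ := pt_img hvi hm h h1 hpos (Nat.zero_le _)
  have key : ∀ s, ∃ b, s ≤ ln m vi sg q → b ≤ MM m + l ∧ f (nm 2 q s) = nm 2 l b := by
    intro s
    induction s with
    | zero => exact ⟨b0, fun _ => ⟨hb0, e0⟩⟩
    | succ s ih =>
      obtain ⟨b, hb⟩ := ih
      by_cases hs : s + 1 ≤ ln m vi sg q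
      · obtain ⟨-, e⟩ := hb (by omega)
        obtain ⟨l', hl', b', hb', e'⟩ := pt_img hvi hm h h1 hpos hs
        have a1 : Adj (GG m vi sg) (nm 2 q s) (nm 2 q (s + 1)) :=
          (adj_pt_pt (ln_le hvi)).2 ⟨rfl, h1, by omega, hs, Or.inl rfl⟩
        have b1 := h.hom _ _ a1
        rw [e, e'] at b1
        obtain ⟨rfl, -⟩ := (adj_pt_pt lnR).1 b1
        exact ⟨b', fun _ => ⟨hb', e'⟩⟩
      · exact ⟨0, fun hs' => absurd hs' hs⟩
  choose g hg using key
  have hd : MM m + l ∣ ln m vi sg q := by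
    refine fold_dvd (MM_pos l) (g := g) (fun s hs => (hg s hs).1) ?_ ?_
    · intro s hs
      have a1 : Adj (GG m vi sg) (nm 2 q s) (nm 2 q (s + 1)) :=
        (adj_pt_pt (ln_le hvi)).2 ⟨rfl, h1, hs.le, hs, Or.inl rfl⟩
      have b1 := h.hom _ _ a1
      rw [(hg s hs.le).2, (hg (s + 1) hs).2] at b1
      exact ((adj_pt_pt lnR).1 b1).2.2.2.2
    · intro s hs b hb hb'
      have hmem : nm 2 q s ∈ (GG m vi sg).1 := (mem_pt (ln_le hvi)).2 ⟨h1, hpos, hs⟩
      obtain ⟨v, hv, hfv⟩ := h.sur _ hmem (nm 2 l b) (by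
        rw [(hg s hs).2]
        exact (adj_pt_pt lnR).2 ⟨rfl, hl, (hg s hs).1, hb, hb'⟩)
      have hhub : ∀ w, (w = q / (6 * m) ∨ w = q / (6 * m) + 1) → f (nm 1 w 0) ≠ nm 2 l b := by
        intro w hw e
        rw [h2] at hw
        rcases hub_img hvi hm h hc hw with e' | e' <;> rw [e'] at e <;>
          · have := (nm_inj.1 e).1
            omega
      rcases nbr_pt hvi hv with rfl | rfl | ⟨rfl, hs'⟩ | ⟨rfl, hs'⟩
      · exact absurd hfv (hhub _ (Or.inl rfl))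
      · exact absurd hfv (hhub _ (Or.inr rfl))
      · left
        rw [(hg (s + 1) hs').2] at hfv
        exact ⟨hs', (nm_inj.1 hfv).2.2⟩
      · right
        rw [(hg (s - 1) (by omega)).2] at hfv
        exact ⟨hs', (nm_inj.1 hfv).2.2⟩
  rw [h4] at hd
  exact ⟨l, dvd_le hvi hc hi hl hd, fun s hs => ⟨g s, (hg s hs).2⟩⟩

theorem sat_of_role : ∃ τ : ℕ → Bool, ∀ j < m, ∃ r, r / 3 = j ∧ τ (vi r) = sg r := by
  have key : ∀ c i, ∃ l, c < 2 * m + 3 → i < ni m c → (∃ k < 6, l = it m vi sg c i k) ∧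
      ∀ s ≤ ln m vi sg (c * (6 * m) + i), ∃ b, f (nm 2 (c * (6 * m) + i) s) = nm 2 l b := by
    intro c i
    by_cases hc : c < 2 * m + 3 ∧ i < ni m c
    · obtain ⟨l, hl⟩ := lab_exists hvi hm h hc.1 hc.2
      exact ⟨l, fun _ _ => hl⟩
    · exact ⟨0, fun h1 h2 => absurd ⟨h1, h2⟩ hc⟩
  choose lam hlam using key
  refine sat_of_labels hvi (lam := lam) (fun c hc i hi => (hlam c i hc hi).1) ?_
  intro w hw0 hw l hl
  have hhub := hub_img hvi hm h (c := w) hw (Or.inl rfl)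
  have hmem : nm 1 w 0 ∈ (GG m vi sg).1 := by
    have hi : 0 < ni m w := by unfold ni; split_ifs <;> omega
    obtain ⟨h1, h2, -, -⟩ := item (vi := vi) (sg := sg) hw hi
    rw [Nat.add_zero] at h1 h2
    exact (mem_hub BB_pos).2 ⟨_, h1, Or.inl h2.symm⟩
  obtain ⟨v, hv, hfv⟩ := h.sur _ hmem (nm 2 l 0) (by
    rcases hhub with e | e <;> rw [e]
    · exact (adj_hub_pt lnR).2 ⟨hl, MM_pos l, Nat.zero_le _, Or.inl rfl⟩
    · exact (adj_hub_pt lnR).2 ⟨hl, MM_pos l, Nat.zero_le _, Or.inr rfl⟩)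
  rcases tr_cases hv.2.2.1 with ⟨i, rfl⟩ | ⟨q, s, rfl⟩
  · exfalso
    obtain ⟨-, q, hq, -, hi⟩ := (adj_hub_hub BB_pos).1 hv
    have hq' : q / (6 * m) < 2 * m + 3 := Nat.div_lt_of_lt_mul (by rwa [Nat.mul_comm])
    rcases hub_img hvi hm h hq' hi with e | e <;> rw [e] at hfv <;>
      · have := (nm_inj.1 hfv).1
        omega
  · obtain ⟨h1, h2, h3, h4⟩ := (adj_hub_pt (ln_le hvi)).1 hv
    obtain ⟨h5, h6, h7⟩ := item' h1 h2
    refine ⟨q / (6 * m), q % (6 * m), by omega, h6, ?_⟩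
    obtain ⟨-, h8⟩ := hlam _ _ h5 h6
    rw [h7] at h8
    obtain ⟨b, hb⟩ := h8 s h3
    rw [hb] at hfv
    exact (nm_inj.1 hfv).2.1

end

end Pool.Agent.NPC.R536RA
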